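import Mathlib

set_option autoImplicit false

/-!
# The equation x x^{-a} x^{a^2} = c over the Frobenius group of order 42

Conjugation is written on the right, `x ^ g = g⁻¹ x g`.  Let `G` be the Frobenius group of order
`42`, generated by `c` of order `7` and `a` of order `6` with `a⁻¹ c a = c ^ 5`.  We show that the
unimodular equation `x * x^{-a} * x^{a^2} = c` has a solution in a finite solvable group
containing `G`, namely in the wreath product of `AGL(1,7)` with a cyclic group of order `3`.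
-/

open SemidirectProduct Multiplicative

namespace Pool.Agent.Results.MP_a21721_al.SolvableOvergroup

/-! ### The finite solvable overgroup -/

/-- The action of the units of `ZMod 7` on `ZMod 7` by multiplication. -/
def act : (ZMod 7)ˣ →* MulAut (Multiplicative (ZMod 7)) :=
  ((MulAutMultiplicative (ZMod 7)).symm.toMonoidHom).comp (AddAut.mulLeft)

/-- The affine group `AGL(1,7)`. -/
abbrev B := Multiplicative (ZMod 7) ⋊[act] (ZMod 7)ˣ

/-- The cyclic group of order `3`. -/
abbrev Q := Multiplicative (ZMod 3)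

/-- The regular wreath product of `AGL(1,7)` with the cyclic group of order `3`. -/
abbrev W := RegularWreathProduct B Q

instance : DecidableEq W := fun x y =>
  decidable_of_iff (x.left = y.left ∧ x.right = y.right) (by
    constructor
    · rintro ⟨h1, h2⟩; exact RegularWreathProduct.ext h1 h2
    · rintro rfl; exact ⟨rfl, rfl⟩)

/-- The affine map `x ↦ u x + b`. -/
def aff (u : (ZMod 7)ˣ) (b : ZMod 7) : B := ⟨ofAdd b, u⟩

/-- The inverse of the image of `a`. -/
def ai : W := ⟨fun x => if toAdd x = 0 then aff (-1) 0 else 1, ofAdd 1⟩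

/-- The image of `c`. -/
def cc : W := ⟨fun x => aff 1 (3 ^ (toAdd x).val), 1⟩

/-- The solution of the equation. -/
def hh : W :=
  ⟨fun x => if toAdd x = 0 then aff 1 5 else if toAdd x = 1 then aff (-1) 4 else aff (-1) 1, 1⟩

lemma cc_pow : cc ^ 7 = 1 := by decide +kernel

lemma cc_ne : cc ≠ 1 := by decide +kernel

lemma ai_pow : ai ^ 6 = 1 := by decide +kernel

lemma ai_conj : ai * cc * ai⁻¹ = cc ^ 5 := by decide +kernel

lemma hh_eq : hh * (ai * hh⁻¹ * ai⁻¹) * (ai ^ 2 * hh * (ai⁻¹) ^ 2) = cc := by decide +kernel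

lemma orderOf_cc : orderOf cc = 7 := by
  have : Fact (Nat.Prime 7) := ⟨by norm_num⟩
  exact orderOf_eq_prime cc_pow cc_ne

lemma ai_ne : ∀ m : Fin 6, 0 < m.val → ai ^ m.val ≠ 1 := by decide +kernel

lemma orderOf_ai : orderOf ai = 6 := by
  rw [orderOf_eq_iff (by norm_num)]
  exact ⟨ai_pow, fun m hm h0 => ai_ne ⟨m, hm⟩ h0⟩

/-! ### Solvability -/

lemma solvable_semidirect {N K : Type*} [Group N] [Group K] (φ : K →* MulAut N)
    [Group.IsSolvable N] [Group.IsSolvable K] : Group.IsSolvable (N ⋊[φ] K) :=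
  Group.isSolvable_of_ker_le_range (inl : N →* N ⋊[φ] K) rightHom
    (by rw [range_inl_eq_ker_rightHom])

lemma solvable_pi {ι : Type*} {D : Type*} [Group D] [h : Group.IsSolvable D] :
    Group.IsSolvable (ι → D) := by
  obtain ⟨n, hn⟩ := id h
  refine ⟨⟨n, ?_⟩⟩
  rw [eq_bot_iff]
  intro f hf
  rw [Subgroup.mem_bot]
  funext i
  have h1 := map_derivedSeries_le_derivedSeries (Pi.evalMonoidHom (fun _ : ι => D) i) n
  have h2 : f i ∈ derivedSeries D n := h1 ⟨f, hf, rfl⟩
  rw [hn, Subgroup.mem_bot] at h2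
  exact h2

lemma solvable_B : Group.IsSolvable B := solvable_semidirect act

/-- The base group of the wreath product. -/
def baseHom : (Q → B) →* W where
  toFun f := ⟨f, 1⟩
  map_one' := rfl
  map_mul' f g := by
    apply RegularWreathProduct.ext
    · funext x; simp
    · simp

lemma finite_W : Finite W := by
  have : Finite B := Finite.of_equiv _ (SemidirectProduct.equivProd).symm
  infer_instance

lemma solvable_W : Group.IsSolvable W := by
  have := solvable_B
  have : Group.IsSolvable (Q → B) := solvable_pi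
  refine Group.isSolvable_of_ker_le_range baseHom RegularWreathProduct.rightHom ?_
  intro x hx
  refine ⟨x.left, ?_⟩
  apply RegularWreathProduct.ext
  · rfl
  · exact (MonoidHom.mem_ker.1 hx).symm

/-! ### Homomorphisms out of the Frobenius group -/

/-- The homomorphism from a cyclic group of order `n` given by an element `x` with `x ^ n = 1`. -/
def zhom (n : ℕ) [NeZero n] {X : Type*} [Group X] (x : X) (hx : x ^ n = 1) :
    Multiplicative (ZMod n) →* X where
  toFun k := x ^ (toAdd k).val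
  map_one' := by simp
  map_mul' k l := by
    rw [toAdd_mul, ZMod.val_add, ← pow_eq_pow_mod _ hx, pow_add]

/-- The unit `3` of `ZMod 7`. -/
def u3 : (ZMod 7)ˣ := ⟨3, 5, by decide, by decide⟩

lemma u3_pow : u3 ^ 6 = 1 := by decide +kernel

/-- The action of the cyclic group of order `6` on the cyclic group of order `7` in which the
generator multiplies by `3`. -/
def act₀ : Multiplicative (ZMod 6) →* MulAut (Multiplicative (ZMod 7)) := act.comp (zhom 6 u3 u3_pow)

/-- A concrete model of the Frobenius group of order `42`. -/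
abbrev G₀ := Multiplicative (ZMod 7) ⋊[act₀] Multiplicative (ZMod 6)

/-- The generator of order `7` of the model. -/
def c₀ : G₀ := inl (ofAdd 1)

/-- The generator of order `6` of the model. -/
def a₀ : G₀ := inr (ofAdd 1)

lemma conj_three {X : Type*} [Group X] {a c : X} (hc : c ^ 7 = 1) (hac : a⁻¹ * c * a = c ^ 5) :
    a * c * a⁻¹ = c ^ 3 := by
  have h1 : (a * c * a⁻¹) ^ 5 = c := by
    rw [conj_pow, ← hac]; group
  have h2 : (a * c * a⁻¹) ^ 7 = 1 := by rw [conj_pow, hc]; group
  calc a * c * a⁻¹ = ((a * c * a⁻¹) ^ 7) ^ 2 * (a * c * a⁻¹) := by rw [h2]; group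
    _ = ((a * c * a⁻¹) ^ 5) ^ 3 := by
      rw [← pow_mul, ← pow_mul, ← pow_succ]
    _ = c ^ 3 := by rw [h1]

lemma conj_pow_three {X : Type*} [Group X] {a c : X} (hc : c ^ 7 = 1)
    (hac : a⁻¹ * c * a = c ^ 5) (k l : ℕ) :
    a ^ k * c ^ l * (a ^ k)⁻¹ = c ^ (3 ^ k * l) := by
  have h : ∀ k : ℕ, a ^ k * c * (a ^ k)⁻¹ = c ^ (3 ^ k) := by
    intro k
    induction k with
    | zero => simp
    | succ k ih =>
      calc a ^ (k + 1) * c * (a ^ (k + 1))⁻¹ = a * (a ^ k * c * (a ^ k)⁻¹) * a⁻¹ := by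
            rw [pow_succ']; group
        _ = (a * c * a⁻¹) ^ (3 ^ k) := by rw [ih, conj_pow]
        _ = c ^ (3 ^ (k + 1)) := by rw [conj_three hc hac, ← pow_mul, pow_succ']
  rw [← conj_pow, h, ← pow_mul]

/-- The homomorphism from the model to a group containing elements satisfying the relations. -/
def lift₀ {X : Type*} [Group X] (a c : X) (ha : a ^ 6 = 1) (hc : c ^ 7 = 1)
    (hac : a⁻¹ * c * a = c ^ 5) : G₀ →* X :=
  SemidirectProduct.lift (zhom 7 c hc) (zhom 6 a ha) (by
    intro g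
    apply MonoidHom.ext
    intro l
    change c ^ (((u3 ^ (toAdd g).val : (ZMod 7)ˣ) : ZMod 7) * toAdd l : ZMod 7).val =
      a ^ (toAdd g).val * c ^ (toAdd l).val * (a ^ (toAdd g).val)⁻¹
    rw [conj_pow_three hc hac, ZMod.val_mul, ← pow_eq_pow_mod _ hc]
    have h3 : ((u3 ^ (toAdd g).val : (ZMod 7)ˣ) : ZMod 7).val = 3 ^ (toAdd g).val % 7 := by
      rw [Units.val_pow_eq_pow_val]
      change ((3 : ZMod 7) ^ (toAdd g).val).val = _
      have : ((3 : ZMod 7) ^ (toAdd g).val) = ((3 ^ (toAdd g).val : ℕ) : ZMod 7) := by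
        push_cast; rfl
      rw [this, ZMod.val_natCast]
    rw [h3, pow_mul, ← pow_eq_pow_mod _ hc, ← pow_mul])

lemma lift₀_c {X : Type*} [Group X] (a c : X) (ha : a ^ 6 = 1) (hc : c ^ 7 = 1)
    (hac : a⁻¹ * c * a = c ^ 5) : lift₀ a c ha hc hac c₀ = c := by
  unfold lift₀ c₀
  rw [lift_inl]
  change c ^ (1 : ZMod 7).val = c
  have : (1 : ZMod 7).val = 1 := by decide
  rw [this, pow_one]

lemma lift₀_a {X : Type*} [Group X] (a c : X) (ha : a ^ 6 = 1) (hc : c ^ 7 = 1)
    (hac : a⁻¹ * c * a = c ^ 5) : lift₀ a c ha hc hac a₀ = a := by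
  unfold lift₀ a₀
  rw [lift_inr]
  change a ^ (1 : ZMod 6).val = a
  have : (1 : ZMod 6).val = 1 := by decide
  rw [this, pow_one]

lemma lift₀_injective {X : Type*} [Group X] (a c : X) (ha6 : a ^ 6 = 1) (hc7 : c ^ 7 = 1)
    (hac : a⁻¹ * c * a = c ^ 5) (ha : orderOf a = 6) (hc : orderOf c = 7) :
    Function.Injective (lift₀ a c ha6 hc7 hac) := by
  rw [injective_iff_map_eq_one]
  rintro ⟨l, g⟩ h
  have h1 : c ^ (toAdd l).val * a ^ (toAdd g).val = 1 := h
  have h2 : c ^ (toAdd l).val = (a ^ (toAdd g).val)⁻¹ := eq_inv_of_mul_eq_one_left h1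
  have h3 : c ^ ((toAdd l).val * 6) = 1 := by
    rw [pow_mul, h2, inv_pow, ← pow_mul, mul_comm, pow_mul, ha6, one_pow, inv_one]
  have h4 : 7 ∣ (toAdd l).val * 6 := (dvd_of_eq hc.symm).trans (orderOf_dvd_of_pow_eq_one h3)
  have h5 : 7 ∣ (toAdd l).val := (Nat.Coprime.dvd_of_dvd_mul_right (by norm_num) h4)
  have h6 : (toAdd l).val = 0 := Nat.eq_zero_of_dvd_of_lt h5 (ZMod.val_lt _)
  have h7 : a ^ (toAdd g).val = 1 := by
    rw [h6, pow_zero, one_mul] at h1; exact h1
  have h8 : 6 ∣ (toAdd g).val := (dvd_of_eq ha.symm).trans (orderOf_dvd_of_pow_eq_one h7)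
  have h9 : (toAdd g).val = 0 := Nat.eq_zero_of_dvd_of_lt h8 (ZMod.val_lt _)
  apply SemidirectProduct.ext
  · exact toAdd.injective ((ZMod.val_eq_zero _).1 h6)
  · exact toAdd.injective ((ZMod.val_eq_zero _).1 h9)

/-- Existence of the group of the problem: the model has generators with the required relations
and has order `42`. -/
theorem exists_group : Nat.card G₀ = 42 ∧ orderOf a₀ = 6 ∧ orderOf c₀ = 7 ∧
    a₀⁻¹ * c₀ * a₀ = c₀ ^ 5 ∧ Subgroup.closure {a₀, c₀} = ⊤ := by
  have hcard : Nat.card G₀ = 42 := by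
    rw [SemidirectProduct.card, Nat.card_congr toAdd, Nat.card_congr toAdd,
      Nat.card_zmod, Nat.card_zmod]
  refine ⟨hcard, ?_, ?_, ?_, ?_⟩
  · rw [orderOf_eq_iff (by norm_num)]
    refine ⟨by decide +kernel, fun m hm h0 => ?_⟩
    have : ∀ m : Fin 6, 0 < m.val → a₀ ^ m.val ≠ 1 := by decide +kernel
    exact this ⟨m, hm⟩ h0
  · have : Fact (Nat.Prime 7) := ⟨by norm_num⟩
    exact orderOf_eq_prime (by decide +kernel) (by decide +kernel)
  · decide +kernel
  · rw [eq_top_iff]
    rintro ⟨l, g⟩ -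
    have h : (⟨l, g⟩ : G₀) = c₀ ^ (toAdd l).val * a₀ ^ (toAdd g).val := by
      rw [mk_eq_inl_mul_inr]
      congr 1
      · unfold c₀
        rw [← map_pow, ← ofAdd_nsmul]
        congr 1
        rw [nsmul_eq_mul, mul_one, ZMod.natCast_zmod_val]
        rfl
      · unfold a₀
        rw [← map_pow, ← ofAdd_nsmul]
        congr 1
        rw [nsmul_eq_mul, mul_one, ZMod.natCast_zmod_val]
        rfl
    rw [h]
    exact mul_mem (pow_mem (Subgroup.subset_closure (by simp)) _)
      (pow_mem (Subgroup.subset_closure (by simp)) _)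

/-- Let `G` be generated by `a` of order `6` and `c` of order `7` with `a⁻¹ c a = c ^ 5` (that is,
`G` is the Frobenius group of order `42`).  Then there is a finite solvable group `H` containing
`G` and an element `h` of `H` with `h * h^{-a} * h^{a^2} = c`. -/
theorem result {G : Type*} [Group G] (a c : G) (ha : orderOf a = 6) (hc : orderOf c = 7)
    (hac : a⁻¹ * c * a = c ^ 5) (hgen : Subgroup.closure {a, c} = ⊤) :
    ∃ (H : Type) (_ : Group H) (_ : Finite H), Group.IsSolvable H ∧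
      ∃ ι : G →* H, Function.Injective ι ∧
        ∃ h : H, h * ((ι a)⁻¹ * h⁻¹ * ι a) * ((ι a ^ 2)⁻¹ * h * ι a ^ 2) = ι c := by
  have ha6 : a ^ 6 = 1 := ha ▸ pow_orderOf_eq_one a
  have hc7 : c ^ 7 = 1 := hc ▸ pow_orderOf_eq_one c
  -- the model is isomorphic to `G`
  have hbij : Function.Bijective (lift₀ a c ha6 hc7 hac) := by
    refine ⟨lift₀_injective a c ha6 hc7 hac ha hc, ?_⟩
    rw [← MonoidHom.range_eq_top, eq_top_iff, ← hgen, Subgroup.closure_le]
    rintro x (rfl | rfl)
    · exact ⟨a₀, lift₀_a _ _ _ _ _⟩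
    · exact ⟨c₀, lift₀_c _ _ _ _ _⟩
  let e : G₀ ≃* G := MulEquiv.ofBijective _ hbij
  have hea : e.symm a = a₀ := by
    rw [MulEquiv.symm_apply_eq]; exact (lift₀_a a c ha6 hc7 hac).symm
  have hec : e.symm c = c₀ := by
    rw [MulEquiv.symm_apply_eq]; exact (lift₀_c a c ha6 hc7 hac).symm
  -- the model embeds in the wreath product
  have hoa : orderOf (ai⁻¹) = 6 := by rw [orderOf_inv, orderOf_ai]
  have hrel : (ai⁻¹)⁻¹ * cc * ai⁻¹ = cc ^ 5 := by rw [inv_inv]; exact ai_conj
  have hai : (ai⁻¹) ^ 6 = 1 := by rw [inv_pow, ai_pow, inv_one]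
  have hinj := lift₀_injective ai⁻¹ cc hai cc_pow hrel hoa orderOf_cc
  refine ⟨W, inferInstance, finite_W, solvable_W,
    (lift₀ ai⁻¹ cc hai cc_pow hrel).comp e.symm.toMonoidHom, ?_, hh, ?_⟩
  · exact hinj.comp e.symm.injective
  · have h1 : (e.symm.toMonoidHom a) = a₀ := hea
    have h2 : (e.symm.toMonoidHom c) = c₀ := hec
    rw [MonoidHom.comp_apply, MonoidHom.comp_apply, h1, h2, lift₀_a, lift₀_c]
    have := hh_eq
    rw [inv_inv]
    rw [inv_pow, inv_inv, ← inv_pow]
    exact this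

end Pool.Agent.Results.MP_a21721_al.SolvableOvergroup
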